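import Pool.Agent.Lib.MP_686cbb_pr.S.Fin3

/-!
# Singularity of `G(n,1/2)` caused by kernel vectors with large concentration

The probability that the adjacency matrix of `G(n,1/2)` has a nonzero real kernel vector whose random
subset sums are concentrated (with probability at least `exp(-√(n log n)/100)` at one point, or, after
the deletion of `m` coordinates, at least `exp(-R)` with `R (R + m) ≤ n log n / 10^4`) is
`n(n+1)/2^n + O((3/8+ε)^n)`.
-/

namespace Pool.Agent.Results.MP_686cbb_pr.ConcentratedKernel

/-- For some set `S` of coordinates and some real `x`, a uniformly random subset of `S` has sum `x`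
with probability at least `exp(-R)`, where `R ≥ log n` and `R (R + (n - |S|)) ≤ n log n / 10^4`. -/
def Concentrated {n : ℕ} (v : Fin n → ℝ) : Prop :=
  ∃ (S : Finset (Fin n)) (R x : ℝ), Real.log n ≤ R ∧
    R * (R + (n - S.card)) ≤ n * Real.log n / 10 ^ 4 ∧
    2 ^ S.card * Real.exp (-R) ≤ ((S.powerset.filter (fun a => ∑ i ∈ a, v i = x)).card : ℝ)

open scoped Classical in
/-- Some nonzero real vector in the kernel of the adjacency matrix of `G` is concentrated. -/
def ConcentratedKernelVector {n : ℕ} (G : SimpleGraph (Fin n)) : Prop :=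
  ∃ v : Fin n → ℝ, v ≠ 0 ∧ (G.adjMatrix ℝ).mulVec v = 0 ∧ Concentrated v

/-- The probability that `G(n,1/2)` has property `P`. -/
noncomputable def prob (n : ℕ) (P : SimpleGraph (Fin n) → Prop) : ℝ :=
  (Nat.card {G : SimpleGraph (Fin n) // P G} : ℝ) / (Nat.card (SimpleGraph (Fin n)) : ℝ)

/-- For every `ε > 0` the probability that the adjacency matrix of `G(n,1/2)` has a nonzero
concentrated kernel vector is `n (n+1) / 2^n + O((3/8 + ε)^n)`. -/
theorem result : ∀ ε : ℝ, 0 < ε → ∃ K : ℝ, ∀ n : ℕ,
    |prob n ConcentratedKernelVector - n * (n + 1) / 2 ^ n| ≤ K * (3 / 8 + ε) ^ n := by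
  intro ε hε
  obtain ⟨K, hK⟩ := SingG.Conc.conc_only ε hε
  refine ⟨K, fun n => ?_⟩
  have h : (ConcentratedKernelVector : SimpleGraph (Fin n) → Prop) = SingG.Conc.CncG := rfl
  unfold prob
  rw [h]
  exact hK n

end Pool.Agent.Results.MP_686cbb_pr.ConcentratedKernel
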