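import Pool.Agent.Lib.MP_686cbb_pr.Sharp

/-!
# Singularity of `G(n,1/2)` caused by kernel vectors with few distinct absolute values

The probability that the adjacency matrix of `G(n,1/2)` has a nonzero real kernel vector with at most
`n - C n / log n` distinct absolute values of coordinates is `n(n+1)/2^n + O((3/8+ε)^n)`.
-/

namespace Pool.Agent.Results.MP_686cbb_pr.FewDistinctValues

open scoped Classical in
/-- Some nonzero real vector in the kernel of the adjacency matrix of `G` has at most `t` distinct
absolute values among its coordinates. -/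
def KernelFewValues {n : ℕ} (t : ℝ) (G : SimpleGraph (Fin n)) : Prop :=
  ∃ v : Fin n → ℝ, v ≠ 0 ∧ (G.adjMatrix ℝ).mulVec v = 0 ∧
    ((Finset.univ.image (fun i => |v i|)).card : ℝ) ≤ t

/-- The probability that `G(n,1/2)` has property `P`. -/
noncomputable def prob (n : ℕ) (P : SimpleGraph (Fin n) → Prop) : ℝ :=
  (Nat.card {G : SimpleGraph (Fin n) // P G} : ℝ) / (Nat.card (SimpleGraph (Fin n)) : ℝ)

/-- There is `C > 0` such that for every `ε > 0` the probability that the adjacency matrix of
`G(n,1/2)` has a nonzero kernel vector with at most `n - C n / log n` distinct absolute values is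
`n (n+1) / 2^n + O((3/8 + ε)^n)`. -/
theorem result : ∃ C : ℝ, 0 < C ∧ ∀ ε : ℝ, 0 < ε → ∃ K : ℝ, ∀ n : ℕ,
    |prob n (KernelFewValues ((n : ℝ) - C * n / Real.log n)) - n * (n + 1) / 2 ^ n| ≤
      K * (3 / 8 + ε) ^ n := by
  refine ⟨SingG.CC, by unfold SingG.CC; norm_num, fun ε hε => ?_⟩
  obtain ⟨K, hK⟩ := SingG.sharp ε hε
  refine ⟨K, fun n => ?_⟩
  have h : (KernelFewValues ((n : ℝ) - SingG.CC * n / Real.log n) :
      SimpleGraph (Fin n) → Prop) =
      SingG.Structured ((n : ℝ) - SingG.CC * n / Real.log n) := by
    funext G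
    unfold KernelFewValues SingG.Structured
    apply propext
    apply exists_congr
    intro v
    apply and_congr_right
    intro _
    apply and_congr
    · rw [funext_iff]
      rfl
    · exact Iff.rfl
  unfold prob
  rw [h]
  exact hK n

end Pool.Agent.Results.MP_686cbb_pr.FewDistinctValues
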