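import Pool.Agent.Lib.S1.Final

/-!
# The adjacency matrix of `G(n,1/2)` is singular with probability `(1/2 + o(1))^n`

The statement uses the same objects as the frozen statement S19383 of the problem.
-/

set_option autoImplicit false
open scoped Classical

namespace Pool.Agent.Results.MP_686cbb_pr.SharpRate

/-- For every `ε` with `0 < ε < 1/2` and all large `n`, the fraction of simple graphs on `n`
labelled vertices whose adjacency matrix has real determinant zero lies between `(1/2 - ε)^n`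
and `(1/2 + ε)^n`. -/
theorem result : ∀ ε : ℝ, 0 < ε → ε < 1 / 2 → ∃ n₀ : ℕ, ∀ n ≥ n₀,
    (1 / 2 - ε) ^ n ≤ (Nat.card {G : SimpleGraph (Fin n) // (G.adjMatrix ℝ).det = 0} : ℝ) /
      (Nat.card (SimpleGraph (Fin n)) : ℝ) ∧
    (Nat.card {G : SimpleGraph (Fin n) // (G.adjMatrix ℝ).det = 0} : ℝ) /
      (Nat.card (SimpleGraph (Fin n)) : ℝ) ≤ (1 / 2 + ε) ^ n := by
  intro ε hε hε2
  have h := Pool.Agent.Lib.S1.sharp
  have h1 := (h.eventually (lt_mem_nhds (show (1 / 2 - ε : ℝ) < 1 / 2 by linarith))).and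
    (h.eventually (gt_mem_nhds (show (1 / 2 : ℝ) < 1 / 2 + ε by linarith)))
  obtain ⟨n₀, hn₀⟩ := Filter.eventually_atTop.1 h1
  refine ⟨n₀ + 1, fun n hn => ?_⟩
  obtain ⟨ha, hb⟩ := hn₀ n (by omega)
  set x : ℝ := (Nat.card {G : SimpleGraph (Fin n) // (G.adjMatrix ℝ).det = 0} : ℝ) /
      (Nat.card (SimpleGraph (Fin n)) : ℝ) with hx
  have hx0 : 0 ≤ x := by positivity
  have hn0 : n ≠ 0 := by omega
  have hxn : (x ^ ((1 : ℝ) / n)) ^ n = x := by
    rw [one_div]
    exact Real.rpow_inv_natCast_pow hx0 hn0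
  constructor
  · calc (1 / 2 - ε) ^ n ≤ (x ^ ((1 : ℝ) / n)) ^ n := pow_le_pow_left₀ (by linarith) ha.le n
      _ = x := hxn
  · calc x = (x ^ ((1 : ℝ) / n)) ^ n := hxn.symm
      _ ≤ (1 / 2 + ε) ^ n := pow_le_pow_left₀ (by positivity) hb.le n

end Pool.Agent.Results.MP_686cbb_pr.SharpRate
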